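import Mathlib

/-!
# A harmonic function on the quadrant

`g` is harmonic for the walk `(i + 1, j + 1) → (i, j + 1), (i + 1, j)` with the boundary values
`(2 / 3) ^ i`.  It is at most `(7 / 2) / √(i + j + 1)`.
-/

set_option autoImplicit false

namespace Pool.Agent.KS6_20.CP

open Finset

/-- the function `g` -/
noncomputable def g : ℕ → ℕ → ℝ
  | 0, j => (2 / 3) ^ j
  | i + 1, 0 => (2 / 3) ^ (i + 1)
  | i + 1, j + 1 => (g i (j + 1) + g (i + 1) j) / 2
termination_by i j => i + j

lemma g_zero_left (j : ℕ) : g 0 j = (2 / 3) ^ j := by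
  rw [g]

lemma g_zero_right (i : ℕ) : g i 0 = (2 / 3) ^ i := by
  cases i with
  | zero => rw [g]
  | succ i => rw [g]

lemma g_succ (i j : ℕ) : g (i + 1) (j + 1) = (g i (j + 1) + g (i + 1) j) / 2 := by
  rw [g]

lemma g_zero : g 0 0 = 1 := by rw [g_zero_left]; norm_num

lemma g_comm_aux (n : ℕ) : ∀ i j : ℕ, i + j = n → g i j = g j i := by
  induction n using Nat.strong_induction_on with
  | _ n ih =>
    intro i j h
    cases i with
    | zero => rw [g_zero_left, g_zero_right]
    | succ i =>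
      cases j with
      | zero => rw [g_zero_left, g_zero_right]
      | succ j =>
        rw [g_succ, g_succ, ih (i + (j + 1)) (by omega) i (j + 1) rfl,
          ih (i + 1 + j) (by omega) (i + 1) j rfl]
        ring

lemma g_comm (i j : ℕ) : g i j = g j i := g_comm_aux (i + j) i j rfl

lemma g_pos_aux (n : ℕ) : ∀ i j : ℕ, i + j = n → 0 < g i j := by
  induction n using Nat.strong_induction_on with
  | _ n ih =>
    intro i j h
    cases i with
    | zero => rw [g_zero_left]; positivity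
    | succ i =>
      cases j with
      | zero => rw [g_zero_right]; positivity
      | succ j =>
        rw [g_succ]
        have h1 := ih (i + (j + 1)) (by omega) i (j + 1) rfl
        have h2 := ih (i + 1 + j) (by omega) (i + 1) j rfl
        linarith

lemma g_pos (i j : ℕ) : 0 < g i j := g_pos_aux (i + j) i j rfl

lemma g_ratio_aux (n : ℕ) : ∀ i j : ℕ, i + j = n →
    g (i + 1) j ≤ 2 * g i j ∧ g i j ≤ 3 / 2 * g i (j + 1) := by
  induction n using Nat.strong_induction_on with
  | _ n ih =>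
    intro i j h
    constructor
    · cases j with
      | zero =>
        rw [g_zero_right, g_zero_right, pow_succ]
        have : (0 : ℝ) < (2 / 3) ^ i := by positivity
        linarith
      | succ j =>
        have h1 := ih (i + j) (by omega) i j rfl
        rw [g_succ]
        linarith [h1.1, h1.2]
    · cases i with
      | zero =>
        rw [g_zero_left, g_zero_left, pow_succ]
        linarith
      | succ i =>
        have h1 := ih (i + j) (by omega) i j rfl
        rw [g_succ]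
        linarith [h1.1, h1.2]

/-- neighbours differ by a factor at most two -/
lemma g_succ_le (i j : ℕ) : g (i + 1) j ≤ 2 * g i j := (g_ratio_aux (i + j) i j rfl).1

/-- on the axis -/
lemma g_axis (j : ℕ) : g 0 j ≤ 3 / 2 * g 0 (j + 1) := (g_ratio_aux (0 + j) 0 j rfl).2

/-- superharmonic in the interior -/
lemma g_super (i j : ℕ) : g i (j + 1) + g (i + 1) j ≤ 2 * g (i + 1) (j + 1) := by
  rw [g_succ]; linarith

/-- the binomial distribution -/
noncomputable def P (i j : ℕ) : ℝ := ((i + j).choose i : ℝ) / 2 ^ (i + j)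

lemma P_zero_left (j : ℕ) : P 0 j = 1 / 2 ^ j := by simp [P]

lemma P_zero_right (i : ℕ) : P i 0 = 1 / 2 ^ i := by simp [P]

lemma P_succ (i j : ℕ) : P (i + 1) (j + 1) = (P i (j + 1) + P (i + 1) j) / 2 := by
  unfold P
  have h1 : (i + 1 + (j + 1)).choose (i + 1)
      = (i + (j + 1)).choose i + (i + 1 + j).choose (i + 1) := by
    rw [show i + 1 + (j + 1) = (i + (j + 1)) + 1 by ring, Nat.choose_succ_succ]
    congr 2
    ring
  rw [h1, show i + 1 + (j + 1) = (i + (j + 1)) + 1 by ring,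
    show i + 1 + j = i + (j + 1) by ring, pow_succ]
  push_cast
  field_simp

/-- the contribution of the left boundary -/
noncomputable def L (i j : ℕ) : ℝ := ∑ t ∈ range i, (2 / 3 : ℝ) ^ t * P (i - 1 - t) j

lemma L_succ (i j : ℕ) : L (i + 1) (j + 1) = (L i (j + 1) + L (i + 1) j) / 2 := by
  unfold L
  have h1 : ∑ t ∈ range (i + 1), (2 / 3 : ℝ) ^ t * P (i + 1 - 1 - t) (j + 1)
      = ∑ t ∈ range i, (2 / 3 : ℝ) ^ t * ((P (i - 1 - t) (j + 1) + P (i - t) j) / 2)
        + (2 / 3 : ℝ) ^ i * (P 0 j / 2) := by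
    rw [Finset.sum_range_succ]
    congr 1
    · refine Finset.sum_congr rfl fun t ht => ?_
      have ht' := Finset.mem_range.1 ht
      rw [show i + 1 - 1 - t = (i - 1 - t) + 1 by omega, P_succ,
        show i - 1 - t + 1 = i - t by omega]
    · rw [show i + 1 - 1 - i = 0 by omega, P_zero_left, P_zero_left, pow_succ]
      field_simp
  have h2 : ∑ t ∈ range (i + 1), (2 / 3 : ℝ) ^ t * P (i + 1 - 1 - t) j
      = ∑ t ∈ range i, (2 / 3 : ℝ) ^ t * P (i - t) j + (2 / 3 : ℝ) ^ i * P 0 j := by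
    rw [Finset.sum_range_succ]
    congr 2
    rw [show i + 1 - 1 - i = 0 by omega]
  have h3 : ∑ t ∈ range i, (2 / 3 : ℝ) ^ t * ((P (i - 1 - t) (j + 1) + P (i - t) j) / 2)
      = (∑ t ∈ range i, (2 / 3 : ℝ) ^ t * P (i - 1 - t) (j + 1)
        + ∑ t ∈ range i, (2 / 3 : ℝ) ^ t * P (i - t) j) / 2 := by
    rw [← Finset.sum_add_distrib, Finset.sum_div]
    refine Finset.sum_congr rfl fun t _ => ?_
    ring
  rw [h1, h2, h3]
  ring

lemma L_zero_left (j : ℕ) : L 0 j = 0 := by simp [L]

lemma L_zero_right (i : ℕ) : L i 0 = 6 * ((2 / 3) ^ i - 1 / 2 ^ i) := by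
  induction i with
  | zero => simp [L]
  | succ i ih =>
    have h1 : L (i + 1) 0 = 1 / 2 * L i 0 + (2 / 3) ^ i := by
      unfold L
      rw [Finset.sum_range_succ, show i + 1 - 1 - i = 0 by omega, P_zero_right, pow_zero, div_one,
        mul_one, Finset.mul_sum]
      congr 1
      refine Finset.sum_congr rfl fun t ht => ?_
      have ht' := Finset.mem_range.1 ht
      rw [P_zero_right, P_zero_right, show i + 1 - 1 - t = (i - 1 - t) + 1 by omega, pow_succ]
      field_simp
    rw [h1, ih, pow_succ, pow_succ]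
    field_simp
    ring

/-- the representation of `g` -/
lemma g_eq_aux (n : ℕ) : ∀ i j : ℕ, i + j = n → g i j = P i j + 1 / 6 * L i j + 1 / 6 * L j i := by
  induction n using Nat.strong_induction_on with
  | _ n ih =>
    intro i j h
    cases i with
    | zero => rw [g_zero_left, P_zero_left, L_zero_left, L_zero_right]; ring
    | succ i =>
      cases j with
      | zero => rw [g_zero_right, P_zero_right, L_zero_left, L_zero_right]; ring
      | succ j =>
        rw [g_succ, P_succ, L_succ, L_succ, ih (i + (j + 1)) (by omega) i (j + 1) rfl,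
          ih (i + 1 + j) (by omega) (i + 1) j rfl]
        ring

/-- central binomial coefficients -/
lemma central_bound (m : ℕ) : ((2 * m).choose m : ℝ) ^ 2 * (2 * m + 1) ≤ (4 ^ m) ^ 2 := by
  induction m with
  | zero => simp
  | succ m ih =>
    have h1 : ((m : ℝ) + 1) * ((2 * (m + 1)).choose (m + 1) : ℝ)
        = 2 * (2 * m + 1) * ((2 * m).choose m : ℝ) := by
      have := Nat.succ_mul_centralBinom_succ m
      unfold Nat.centralBinom at this
      exact_mod_cast this
    have hm : (0 : ℝ) < (m : ℝ) + 1 := by positivity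
    have h2 : ((2 * (m + 1)).choose (m + 1) : ℝ)
        = 2 * (2 * m + 1) * ((2 * m).choose m : ℝ) / (m + 1) := by
      rw [eq_div_iff hm.ne']; linarith
    rw [h2]
    push_cast
    have h3 : (2 * (2 * (m : ℝ) + 1) * ((2 * m).choose m : ℝ) / (m + 1)) ^ 2 * (2 * (m + 1) + 1)
        = (((2 * m).choose m : ℝ) ^ 2 * (2 * m + 1)) * (4 * (2 * m + 1) * (2 * m + 3) / (m + 1) ^ 2) := by
      field_simp
      ring
    rw [h3]
    have h4 : 4 * (2 * (m : ℝ) + 1) * (2 * m + 3) / (m + 1) ^ 2 ≤ 16 := by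
      rw [div_le_iff₀ (by positivity)]
      nlinarith
    calc ((2 * m).choose m : ℝ) ^ 2 * (2 * m + 1) * (4 * (2 * m + 1) * (2 * m + 3) / (m + 1) ^ 2)
        ≤ (4 ^ m) ^ 2 * 16 := by gcongr
      _ = (4 ^ (m + 1)) ^ 2 := by rw [pow_succ (4 : ℝ) m]; ring

lemma P_sq (i j : ℕ) : P i j ^ 2 * ((i : ℝ) + j + 1) ≤ 1 := by
  unfold P
  rw [div_pow, div_mul_eq_mul_div, div_le_one (by positivity)]
  rcases Nat.even_or_odd' (i + j) with ⟨m, hm | hm⟩
  · have h1 : ((i + j).choose i : ℝ) ≤ ((2 * m).choose m : ℝ) := by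
      rw [hm]
      have := Nat.choose_le_middle i (2 * m)
      rw [show 2 * m / 2 = m by omega] at this
      exact_mod_cast this
    have h2 : (i : ℝ) + j = 2 * m := by exact_mod_cast hm
    have h3 := central_bound m
    have h4 : (2 : ℝ) ^ (i + j) = 4 ^ m := by rw [hm, pow_mul]; norm_num
    rw [h4, h2]
    refine le_trans ?_ h3
    gcongr
  · have h1 : ((i + j).choose i : ℝ) ≤ ((2 * m + 1).choose m : ℝ) := by
      rw [hm]
      have := Nat.choose_le_middle i (2 * m + 1)
      rw [show (2 * m + 1) / 2 = m by omega] at this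
      exact_mod_cast this
    have h2 : (i : ℝ) + j = 2 * m + 1 := by exact_mod_cast hm
    have h5 : 2 * ((2 * m + 1).choose m : ℝ) = ((2 * (m + 1)).choose (m + 1) : ℝ) := by
      have h6 : (2 * (m + 1)).choose (m + 1) = (2 * m + 1).choose m + (2 * m + 1).choose (m + 1) := by
        rw [show 2 * (m + 1) = (2 * m + 1) + 1 by ring, Nat.choose_succ_succ]
      have h7 : (2 * m + 1).choose (m + 1) = (2 * m + 1).choose m := by
        rw [← Nat.choose_symm_of_eq_add (show 2 * m + 1 = m + 1 + m by ring)]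
      rw [h6, h7]
      push_cast
      ring
    have h3 := central_bound (m + 1)
    rw [← h5] at h3
    have h4 : 2 * (2 : ℝ) ^ (i + j) = 4 ^ (m + 1) := by
      rw [hm, ← pow_succ', show 2 * m + 1 + 1 = 2 * (m + 1) by ring, pow_mul]; norm_num
    rw [← h4] at h3
    rw [h2]
    have h8 : ((i + j).choose i : ℝ) ^ 2 * (2 * m + 1 + 1)
        ≤ ((2 * m + 1).choose m : ℝ) ^ 2 * (2 * m + 3) :=
      mul_le_mul (pow_le_pow_left₀ (by positivity) h1 2) (by linarith) (by positivity)
        (by positivity)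
    push_cast at h3
    nlinarith

lemma P_le (i j : ℕ) : P i j ≤ 1 / Real.sqrt ((i : ℝ) + j + 1) := by
  have h0 : (0 : ℝ) < (i : ℝ) + j + 1 := by positivity
  have h1 := P_sq i j
  have h2 : 0 ≤ P i j := by unfold P; positivity
  rw [le_div_iff₀ (Real.sqrt_pos.2 h0)]
  have h3 : (P i j * Real.sqrt ((i : ℝ) + j + 1)) ^ 2 ≤ 1 ^ 2 := by
    rw [mul_pow, Real.sq_sqrt h0.le]; simpa using h1
  exact le_of_sq_le_sq h3 (by norm_num)

lemma geom_bound (n : ℕ) : ∑ t ∈ range n, (2 / 3 : ℝ) ^ t * ((t + 3) / 2)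
    = 15 / 2 - (2 / 3) ^ n * (15 / 2 + 3 / 2 * n) := by
  induction n with
  | zero => norm_num
  | succ n ih =>
    rw [Finset.sum_range_succ, ih, pow_succ]
    push_cast
    ring

lemma L_le (i j : ℕ) : L i j ≤ 15 / 2 / Real.sqrt ((i : ℝ) + j + 1) := by
  have h0 : (0 : ℝ) < (i : ℝ) + j + 1 := by positivity
  have hs := Real.sqrt_pos.2 h0
  unfold L
  have h1 : ∀ t ∈ range i, (2 / 3 : ℝ) ^ t * P (i - 1 - t) j
      ≤ (2 / 3 : ℝ) ^ t * ((t + 3) / 2) / Real.sqrt ((i : ℝ) + j + 1) := by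
    intro t ht
    have ht' := Finset.mem_range.1 ht
    rw [mul_div_assoc]
    refine mul_le_mul_of_nonneg_left ?_ (by positivity)
    refine (P_le _ _).trans ?_
    obtain ⟨a, rfl⟩ : ∃ a, i = a + 1 + t := ⟨i - 1 - t, by omega⟩
    rw [show a + 1 + t - 1 - t = a by omega]
    rw [div_le_div_iff₀ (Real.sqrt_pos.2 (by positivity)) hs, one_mul]
    have h2 : (0 : ℝ) ≤ ((t : ℝ) + 3) / 2 * Real.sqrt ((a : ℝ) + j + 1) := by positivity
    rw [← Real.sqrt_sq h2]
    refine Real.sqrt_le_sqrt ?_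
    rw [mul_pow, Real.sq_sqrt (by positivity)]
    push_cast
    have ha : (0 : ℝ) ≤ a := Nat.cast_nonneg a
    have hj : (0 : ℝ) ≤ j := Nat.cast_nonneg j
    have ht0 : (0 : ℝ) ≤ t := Nat.cast_nonneg t
    have h3 : (t : ℝ) + 2 ≤ (((t : ℝ) + 3) / 2) ^ 2 := by nlinarith [sq_nonneg ((t : ℝ) + 1)]
    calc (a : ℝ) + 1 + t + j + 1 ≤ ((t : ℝ) + 2) * (a + j + 1) := by
          nlinarith [mul_nonneg ht0 ha, mul_nonneg ht0 hj]
      _ ≤ (((t : ℝ) + 3) / 2) ^ 2 * (a + j + 1) := by gcongr
  refine (Finset.sum_le_sum h1).trans ?_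
  rw [← Finset.sum_div, geom_bound]
  have h4 : (0 : ℝ) ≤ (2 / 3) ^ i * (15 / 2 + 3 / 2 * i) := by positivity
  gcongr
  linarith

/-- the bound far from the corner -/
lemma g_le (i j s : ℕ) (h : s ≤ i + j + 1) (hs : 1 ≤ s) : g i j ≤ 7 / 2 / Real.sqrt s := by
  have hs0 : (0 : ℝ) < s := by exact_mod_cast hs
  have h1 := P_le i j
  have h2 := L_le i j
  have h3 := L_le j i
  rw [show (j : ℝ) + i + 1 = (i : ℝ) + j + 1 by ring] at h3
  have h4 : g i j ≤ 7 / 2 / Real.sqrt ((i : ℝ) + j + 1) := by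
    rw [g_eq_aux (i + j) i j rfl]
    have h5 : 7 / 2 / Real.sqrt ((i : ℝ) + j + 1) = 1 / Real.sqrt ((i : ℝ) + j + 1)
        + 1 / 6 * (15 / 2 / Real.sqrt ((i : ℝ) + j + 1))
        + 1 / 6 * (15 / 2 / Real.sqrt ((i : ℝ) + j + 1)) := by ring
    rw [h5]
    linarith
  refine h4.trans ?_
  have h6 : (s : ℝ) ≤ (i : ℝ) + j + 1 := by exact_mod_cast h
  have h7 := Real.sqrt_pos.2 hs0
  gcongr

end Pool.Agent.KS6_20.CP
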